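import Pool.Agent.K1H44.LC.Plan

set_option autoImplicit false

/-! Project LC: `S_APP`. -/

namespace Pool.Agent.K1H78.LC

open Pool.Agent.K1H44.LC

theorem t_APP : S_APP := by
  intro hDIO hID p q hpq ε hε
  obtain ⟨hp, hq, hne⟩ := hpq
  have hp2 : (2 : ℝ) ≤ p := by exact_mod_cast hp.two_le
  have hq2 : (2 : ℝ) ≤ q := by exact_mod_cast hq.two_le
  have hp0 : (0 : ℝ) < p := by linarith
  have hq0 : (0 : ℝ) < q := by linarith
  have hq1 : (1 : ℝ) ≤ q := by linarith
  obtain ⟨K, hK⟩ := exists_pow_lt_of_lt_one (show 0 < ε / (2 * (q : ℝ) ^ 3) by positivity)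
    (show (1 / 4 : ℝ) < 1 by norm_num)
  obtain ⟨b, U, a, hb1, hbU, hLa, h1, h2, h3⟩ := hDIO p q ⟨hp, hq, hne⟩ K
  obtain ⟨hsum, N, hN⟩ := hID p q ⟨hp, hq, hne⟩ b a hb1 hLa
  have hU1 : 1 ≤ U := by omega
  obtain ⟨W, hW⟩ : ∃ W, U = W + 1 := ⟨U - 1, by omega⟩
  have hDpos : (0 : ℤ) < (p : ℤ) ^ b * (q : ℤ) ^ a - 1 := by
    have h4 : (2 : ℤ) ≤ (p : ℤ) ^ b := by
      calc (2 : ℤ) ≤ p := by exact_mod_cast hp.two_le
        _ = (p : ℤ) ^ 1 := (pow_one _).symm
        _ ≤ (p : ℤ) ^ b := pow_le_pow_right₀ (by exact_mod_cast hp.one_lt.le) hb1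
    have h5 : (1 : ℤ) ≤ (q : ℤ) ^ a := one_le_pow₀ (by exact_mod_cast hq.one_lt.le)
    nlinarith
  have hDc : (((p : ℤ) ^ b * (q : ℤ) ^ a - 1 : ℤ) : ℝ) = (p : ℝ) ^ b * (q : ℝ) ^ a - 1 := by
    push_cast
    ring
  -- the terms
  have hL0 : L p q 0 = 0 := by unfold L; simp
  have haL : a ≤ L p q b + 1 := by
    rcases h3 with h3 | h3
    · have := (h3 0).1
      rw [hL0, zero_add, zero_add] at this
      omega
    · have := (h3 0).2
      rw [hL0, zero_add, zero_add] at this
      omega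
  have hqL : ∀ u, (q : ℝ) ^ L p q u ≤ (p : ℝ) ^ u := by
    intro u
    have : q ^ L p q u ≤ p ^ u := Nat.pow_log_le_self q (pow_ne_zero u hp.ne_zero)
    exact_mod_cast this
  have hqL' : ∀ u, (p : ℝ) ^ u ≤ (q : ℝ) ^ (L p q u + 1) := by
    intro u
    have : p ^ u < q ^ (L p q u + 1) := Nat.lt_pow_succ_log_self hq.one_lt _
    exact_mod_cast this.le
  have hz : ∀ u, u < W → er p q b a u = 0 := by
    intro u hu
    unfold er
    rw [h1 (u + 1) (by omega) (by omega)]
    have : (q : ℝ) ^ a / ((q : ℝ) ^ (L p q (u + 1) + a)) = 1 / (q : ℝ) ^ L p q (u + 1) := by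
      rw [pow_add]
      field_simp
    rw [this, sub_self, mul_zero]
  set r : ℝ := 1 / (p : ℝ) ^ 2 with hr
  have hr0 : 0 < r := by positivity
  have hr4 : r ≤ 1 / 4 := by
    rw [hr]
    apply one_div_le_one_div_of_le (by norm_num)
    nlinarith
  -- comparison of powers
  have hcmp : ∀ u x, L p q (u + 1) + a ≤ x → (q : ℝ) ^ a / (q : ℝ) ^ x ≤ 1 / (q : ℝ) ^ L p q (u + 1) := by
    intro u x hx
    rw [div_le_div_iff₀ (by positivity) (by positivity), one_mul, ← pow_add]
    exact pow_le_pow_right₀ hq1 (by omega)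
  have hbd : ∀ u, |er p q b a u| ≤ (q : ℝ) ^ 2 * r ^ (u + 1) := by
    intro u
    have e1 : 1 / (p : ℝ) ^ (u + 1) * ((q : ℝ) * (1 / (q : ℝ) ^ L p q (u + 1))) ≤
        (q : ℝ) ^ 2 * r ^ (u + 1) := by
      have h4 : 1 / (q : ℝ) ^ L p q (u + 1) ≤ q * (1 / (p : ℝ) ^ (u + 1)) := by
        rw [mul_one_div, div_le_div_iff₀ (by positivity) (by positivity), one_mul]
        have := hqL' (u + 1)
        rw [pow_succ (q : ℝ)] at this
        linarith
      have h5 : r ^ (u + 1) = 1 / (p : ℝ) ^ (u + 1) * (1 / (p : ℝ) ^ (u + 1)) := by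
        rw [hr, div_pow, one_pow, ← pow_mul, mul_comm 2, pow_mul, pow_two, one_div_mul_one_div]
      rw [h5]
      have h6 : (q : ℝ) * (1 / (q : ℝ) ^ L p q (u + 1)) ≤ q * (q * (1 / (p : ℝ) ^ (u + 1))) :=
        mul_le_mul_of_nonneg_left h4 hq0.le
      calc 1 / (p : ℝ) ^ (u + 1) * ((q : ℝ) * (1 / (q : ℝ) ^ L p q (u + 1))) ≤
            1 / (p : ℝ) ^ (u + 1) * (q * (q * (1 / (p : ℝ) ^ (u + 1)))) :=
            mul_le_mul_of_nonneg_left h6 (by positivity)
        _ = _ := by ring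
    refine le_trans ?_ e1
    unfold er
    rw [abs_mul, abs_of_nonneg (show (0 : ℝ) ≤ 1 / (p : ℝ) ^ (u + 1) by positivity)]
    apply mul_le_mul_of_nonneg_left _ (by positivity)
    have hx0 : 0 ≤ (q : ℝ) ^ a / (q : ℝ) ^ L p q (u + 1 + b) := by positivity
    have hy0 : 0 < 1 / (q : ℝ) ^ L p q (u + 1) := by positivity
    have hxy : (q : ℝ) ^ a / (q : ℝ) ^ L p q (u + 1 + b) ≤ q * (1 / (q : ℝ) ^ L p q (u + 1)) := by
      rw [mul_one_div, div_le_div_iff₀ (by positivity) (by positivity), ← pow_add, mul_comm,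
        ← pow_succ]
      apply pow_le_pow_right₀ hq1
      rcases h3 with h3 | h3
      · have := (h3 (u + 1)).1
        omega
      · have := (h3 (u + 1)).2
        omega
    rw [abs_le]
    constructor
    · nlinarith
    · nlinarith
  have htail : |∑' u, er p q b a u| ≤ 2 * (q : ℝ) ^ 2 * r ^ U := by
    have h4 := hsum.sum_add_tsum_nat_add W
    have h5 : ∑ i ∈ Finset.range W, er p q b a i = 0 :=
      Finset.sum_eq_zero fun i hi => hz i (Finset.mem_range.mp hi)
    rw [h5, zero_add] at h4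
    rw [← h4]
    have hg : HasSum (fun v : ℕ => (q : ℝ) ^ 2 * r ^ U * r ^ v) ((q : ℝ) ^ 2 * r ^ U * (1 - r)⁻¹) :=
      (hasSum_geometric_of_lt_one hr0.le (by linarith)).mul_left _
    have h6 := tsum_of_norm_bounded (f := fun v => er p q b a (v + W)) hg (fun v => by
      rw [Real.norm_eq_abs]
      refine (hbd (v + W)).trans (le_of_eq ?_)
      rw [show v + W + 1 = U + v by omega, pow_add]
      ring)
    rw [Real.norm_eq_abs] at h6
    refine h6.trans ?_
    have h7 : (1 - r)⁻¹ ≤ 2 := by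
      rw [inv_le_comm₀ (by linarith) (by norm_num)]
      linarith
    calc (q : ℝ) ^ 2 * r ^ U * (1 - r)⁻¹ ≤ (q : ℝ) ^ 2 * r ^ U * 2 :=
          mul_le_mul_of_nonneg_left h7 (by positivity)
      _ = _ := by ring
  have hnz : ∑' u, er p q b a u ≠ 0 := by
    rcases h3 with h3 | h3
    · have hle : ∀ u, er p q b a u ≤ 0 := by
        intro u
        unfold er
        apply mul_nonpos_of_nonneg_of_nonpos (by positivity)
        have := hcmp u _ (h3 (u + 1)).1
        linarith
      have hlt : er p q b a W < 0 := by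
        unfold er
        apply mul_neg_of_pos_of_neg (by positivity)
        have h4 : L p q (W + 1 + b) = L p q (W + 1) + a + 1 := by
          rw [← hW]
          have := h3 U
          omega
        rw [h4, sub_neg, div_lt_div_iff₀ (by positivity) (by positivity), one_mul, ← pow_add]
        exact pow_lt_pow_right₀ (by linarith) (by omega)
      have h5 := hsum.neg.tsum_pos (fun u => by simpa using hle u) W (by simpa using hlt)
      rw [tsum_neg] at h5
      intro h6
      rw [h6] at h5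
      simp at h5
    · have hle : ∀ u, 0 ≤ er p q b a u := by
        intro u
        unfold er
        apply mul_nonneg (by positivity)
        rw [sub_nonneg, div_le_div_iff₀ (by positivity) (by positivity), one_mul, ← pow_add]
        apply pow_le_pow_right₀ hq1
        have := (h3 (u + 1)).1
        omega
      have hlt : 0 < er p q b a W := by
        unfold er
        apply mul_pos (by positivity)
        have h4 : L p q (W + 1 + b) + 1 = L p q (W + 1) + a := by
          rw [← hW]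
          have := h3 U
          omega
        rw [sub_pos, div_lt_div_iff₀ (by positivity) (by positivity), one_mul, ← pow_add]
        exact pow_lt_pow_right₀ (by linarith) (by omega)
      exact (hsum.tsum_pos hle W hlt).ne'
  refine ⟨(p : ℤ) ^ b * (q : ℤ) ^ a - 1, N, hDpos, ?_, ?_⟩
  · rw [hDc, hN]
    exact hnz
  · rw [hDc, hN]
    have hD1 : (p : ℝ) ^ b * (q : ℝ) ^ a - 1 ≤ q * ((p : ℝ) ^ 2) ^ b := by
      have h4 : (q : ℝ) ^ a ≤ q * (p : ℝ) ^ b := by
        calc (q : ℝ) ^ a ≤ (q : ℝ) ^ (L p q b + 1) := pow_le_pow_right₀ hq1 haL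
          _ = q * (q : ℝ) ^ L p q b := by rw [pow_succ]; ring
          _ ≤ q * (p : ℝ) ^ b := mul_le_mul_of_nonneg_left (hqL b) hq0.le
      have h5 := mul_le_mul_of_nonneg_left h4 (by positivity : (0 : ℝ) ≤ (p : ℝ) ^ b)
      have h6 : (p : ℝ) ^ b * (q * (p : ℝ) ^ b) = q * ((p : ℝ) ^ 2) ^ b := by
        rw [← pow_mul, mul_comm 2 b, pow_mul]
        ring
      linarith
    have hD0 : 0 ≤ (p : ℝ) ^ b * (q : ℝ) ^ a - 1 := by
      rw [← hDc]
      exact_mod_cast hDpos.le
    calc |∑' u, er p q b a u| * ((p : ℝ) ^ b * (q : ℝ) ^ a - 1) ≤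
          (2 * (q : ℝ) ^ 2 * r ^ U) * (q * ((p : ℝ) ^ 2) ^ b) :=
          mul_le_mul htail hD1 hD0 (by positivity)
      _ = 2 * (q : ℝ) ^ 3 * (r ^ (U - b) * (r * (p : ℝ) ^ 2) ^ b) := by
          rw [mul_pow r, ← mul_assoc (r ^ (U - b)), ← pow_add, Nat.sub_add_cancel (by omega)]
          ring
      _ = 2 * (q : ℝ) ^ 3 * r ^ (U - b) := by
          have : r * (p : ℝ) ^ 2 = 1 := by
            rw [hr]
            field_simp
          rw [this, one_pow, mul_one]
      _ ≤ 2 * (q : ℝ) ^ 3 * (1 / 4) ^ K := by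
          apply mul_le_mul_of_nonneg_left _ (by positivity)
          calc r ^ (U - b) ≤ r ^ K := pow_le_pow_of_le_one hr0.le (by linarith) (by omega)
            _ ≤ (1 / 4) ^ K := pow_le_pow_left₀ hr0.le hr4 K
      _ < ε := by
          rw [lt_div_iff₀ (by positivity)] at hK
          linarith

end Pool.Agent.K1H78.LC
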